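import Pool.Agent.H20.QL.Defs

set_option autoImplicit false

namespace Pool.Agent.H42.QL

open Pool.Agent.H20.QL Matrix Filter

section
variable {V : Type} [Fintype V] [DecidableEq V]

lemma pow_mulVec_fixed {T : Matrix V V ℝ} {φ : V → ℝ} (h : T *ᵥ φ = φ) (n : ℕ) :
    (T ^ n) *ᵥ φ = φ := by
  induction n with
  | zero => simp
  | succ n ih => rw [pow_succ, ← mulVec_mulVec, h, ih]

lemma aeval_mulVec_fixed {T : Matrix V V ℝ} {φ : V → ℝ} (h : T *ᵥ φ = φ)
    (P : Polynomial ℝ) : (Polynomial.aeval T P) *ᵥ φ = P.eval 1 • φ := by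
  induction P using Polynomial.induction_on' with
  | add p q hp hq => rw [map_add, add_mulVec, hp, hq, Polynomial.eval_add, add_smul]
  | monomial n a =>
    rw [Polynomial.aeval_monomial, Polynomial.eval_monomial, one_pow, mul_one,
      Algebra.algebraMap_eq_smul_one, smul_mul_assoc, one_mul, smul_mulVec, pow_mulVec_fixed h]

lemma isSymm_pow {T : Matrix V V ℝ} (h : T.IsSymm) (n : ℕ) : (T ^ n).IsSymm := by
  unfold Matrix.IsSymm
  rw [transpose_pow, h.eq]

lemma isSymm_aeval {T : Matrix V V ℝ} (h : T.IsSymm) (P : Polynomial ℝ) :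
    (Polynomial.aeval T P).IsSymm := by
  induction P using Polynomial.induction_on' with
  | add p q hp hq =>
    rw [map_add]
    exact hp.add hq
  | monomial n a =>
    rw [Polynomial.aeval_monomial, Algebra.algebraMap_eq_smul_one, smul_mul_assoc, one_mul]
    exact (isSymm_pow h n).smul a

omit [Fintype V] in
lemma entry_bound [Fintype V] {A : Matrix V V ℝ} {C : ℝ}
    (h : ∀ u v : V → ℝ, |u ⬝ᵥ (A *ᵥ v)| ≤ C * √(u ⬝ᵥ u) * √(v ⬝ᵥ v)) (x y : V) :
    |A x y| ≤ C := by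
  have := h (Pi.single x 1) (Pi.single y 1)
  simpa using this

end

theorem blk (hU : UnifStmt) (hK : QLStmt) (hN : NonapproxStmt) : BlkStmt := by
  intro Δ lam hlam0 hlam1
  -- the threshold
  set t0 : ℝ := √((1 + lam) / 2) with ht0
  have hsq : t0 ^ 2 = (1 + lam) / 2 := Real.sq_sqrt (by linarith)
  have ht0pos : 0 < t0 := Real.sqrt_pos.mpr (by linarith)
  have ht01 : t0 < 1 := by
    rw [ht0, Real.sqrt_lt' one_pos]
    linarith
  have hlamt : lam < t0 ^ 2 := by rw [hsq]; linarith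
  obtain ⟨l0, δ, hδ0, hδ, hunif⟩ := hU Δ lam t0 hlam0 ht0pos ht01 hlamt
  obtain ⟨C, μ, hC, hql⟩ := hK t0 ht0pos ht01 l0 δ hδ0 hδ
  refine ⟨C, μ, hC, fun n => ?_⟩
  obtain ⟨k, ⟨⟨hk1, hk2⟩, hk3⟩, hk4⟩ := (((hunif.and (hql n)).and (hN n C hC)).and
    (eventually_ge_atTop 8)).exists
  obtain ⟨D, hD⟩ := hk1
  refine ⟨D, fun V _ _ nb T φ hker hfix hone S hS1 hS2 => ?_⟩
  obtain ⟨P, ε, hUI⟩ := hD V nb T hker
  set H : Matrix V V ℝ := Polynomial.aeval T P with hH
  have hHs : H.IsSymm := isSymm_aeval hker.tsymm P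
  have hql' := hk2 V nb Δ D lam T hker P ε hUI
  -- the norm of `H φ`
  have hP1 : |P.eval 1 - 1| ≤ 1 / 8 := by
    have h1 := hUI.cut 1 ⟨zero_le_one, le_rfl⟩
    have h2 : cut t0 1 = 1 := by
      unfold cut
      rw [div_self (by linarith)]
      exact max_eq_right zero_le_one
    rw [h2] at h1
    refine h1.trans ?_
    have h8 : (8:ℝ) ≤ k := by exact_mod_cast hk4
    exact one_div_le_one_div_of_le (by norm_num) h8
  have hnorm : 3 / 4 ≤ (H *ᵥ φ) ⬝ᵥ (H *ᵥ φ) := by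
    rw [hH, aeval_mulVec_fixed hfix, smul_dotProduct, dotProduct_smul, hone]
    simp only [smul_eq_mul, mul_one]
    have := (abs_le.mp hP1).1
    nlinarith
  obtain ⟨s, hs⟩ := hk3 V H φ ε S hHs hone hS1 hS2 hnorm
    (fun s x y => entry_bound (hql' s).1 x y)
  exact ⟨op (H ^ 2) ε s, (hql' s).1, (hql' s).2, hs⟩

end Pool.Agent.H42.QL
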