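import Pool.Agent.H20.QL.Defs

set_option autoImplicit false

namespace Pool.Agent.H42.QL

open Pool.Agent.H20.QL

lemma cut_nonneg (t0 t : ℝ) : 0 ≤ cut t0 t := le_max_left _ _

lemma cut_le_one {t0 t : ℝ} (h1 : t0 < 1) (ht : t ≤ 1) : cut t0 t ≤ 1 := by
  unfold cut
  apply max_le zero_le_one
  rw [div_le_one (by linarith)]
  linarith

lemma cut_eq_zero {t0 t : ℝ} (h1 : t0 < 1) (ht : t ≤ t0) : cut t0 t = 0 := by
  unfold cut
  apply max_eq_left
  apply div_nonpos_of_nonpos_of_nonneg <;> linarith

lemma cut_one {t0 : ℝ} (h1 : t0 < 1) : cut t0 1 = 1 := by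
  unfold cut
  rw [div_self (by linarith)]
  exact max_eq_right zero_le_one

lemma continuous_cut (t0 : ℝ) : Continuous (cut t0) := by
  unfold cut
  fun_prop

theorem poly : PolyStmt := by
  intro t0 h0 h1
  constructor
  · intro η hη
    obtain ⟨p, hp⟩ := exists_polynomial_near_of_continuousOn 0 1 (cut t0)
      (continuous_cut t0).continuousOn η hη
    exact ⟨p, fun t ht => (hp t ht).le⟩
  · intro j η hη
    set g : ℝ → ℝ := fun t => cut t0 t / (max t t0) ^ j with hg
    have hpos : ∀ t, 0 < max t t0 := fun t => lt_of_lt_of_le h0 (le_max_right _ _)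
    have hgc : Continuous g := by
      apply Continuous.div (continuous_cut t0) (by fun_prop)
      intro t
      exact pow_ne_zero _ (hpos t).ne'
    obtain ⟨q, hq⟩ := exists_polynomial_near_of_continuousOn 0 1 g hgc.continuousOn (min η 1)
      (lt_min hη one_pos)
    have hgt : ∀ t ∈ Set.Icc (0:ℝ) 1, t ^ j * g t = cut t0 t := by
      intro t ht
      rcases le_total t t0 with h | h
      · simp only [hg]
        rw [cut_eq_zero h1 h]
        simp
      · simp only [hg]
        rw [max_eq_left h]
        have : t ≠ 0 := (h0.trans_le h).ne'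
        field_simp
    refine ⟨q, ?_, ?_⟩
    · intro t ht r hr
      have hd : |q.eval t - g t| ≤ 1 := (hq t ht).le.trans (min_le_right _ _)
      have htr : |t ^ (j - r)| ≤ 1 := by
        rw [abs_of_nonneg (pow_nonneg ht.1 _)]
        exact pow_le_one₀ ht.1 ht.2
      have hgr : |t ^ (j - r) * g t| ≤ 1 / t0 ^ r := by
        rcases le_total t t0 with h | h
        · simp only [hg]
          rw [cut_eq_zero h1 h]
          simp only [zero_div, mul_zero, abs_zero]
          positivity
        · simp only [hg]
          rw [max_eq_left h]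
          have htp : 0 < t := h0.trans_le h
          have e1 : t ^ (j - r) * (cut t0 t / t ^ j) = cut t0 t / t ^ r := by
            have : t ^ j = t ^ (j - r) * t ^ r := by rw [← pow_add, Nat.sub_add_cancel hr]
            rw [this]
            field_simp
          rw [e1, abs_of_nonneg (div_nonneg (cut_nonneg _ _) (by positivity))]
          exact div_le_div₀ zero_le_one (cut_le_one h1 ht.2) (by positivity)
            (pow_le_pow_left₀ h0.le h r)
      have h1r : (1:ℝ) ≤ 1 / t0 ^ r := by
        rw [le_div_iff₀ (by positivity), one_mul]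
        exact pow_le_one₀ h0.le h1.le
      have e2 : t ^ (j - r) * q.eval t = t ^ (j - r) * (q.eval t - g t) + t ^ (j - r) * g t := by
        ring
      rw [e2]
      calc |t ^ (j - r) * (q.eval t - g t) + t ^ (j - r) * g t|
          ≤ |t ^ (j - r) * (q.eval t - g t)| + |t ^ (j - r) * g t| := abs_add_le _ _
        _ ≤ 1 + 1 / t0 ^ r := by
            apply add_le_add _ hgr
            rw [abs_mul]
            exact mul_le_one₀ htr (abs_nonneg _) hd
        _ ≤ 2 / t0 ^ r := by
            have : 2 / t0 ^ r = 1 / t0 ^ r + 1 / t0 ^ r := by ring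
            linarith
    · intro t ht
      have e3 : t ^ j * q.eval t - cut t0 t = t ^ j * (q.eval t - g t) := by
        rw [mul_sub, hgt t ht]
      rw [e3, abs_mul, abs_of_nonneg (pow_nonneg ht.1 _)]
      have hd : |q.eval t - g t| ≤ η := (hq t ht).le.trans (min_le_left _ _)
      calc t ^ j * |q.eval t - g t| ≤ 1 * η :=
            mul_le_mul (pow_le_one₀ ht.1 ht.2) hd (abs_nonneg _) zero_le_one
        _ = η := one_mul _

end Pool.Agent.H42.QL
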